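import Mathlib

/-!
# Elementary facts on left braces

A left brace is a type `X` with a group structure and an additive commutative group structure such
that `a * (b + c) + a = a * b + a * c`.
-/

set_option autoImplicit false

namespace Pool.Agent.R879.IYB

/-- `G` is the multiplicative group of a left brace. -/
def HasBrace (G : Type*) [Group G] : Prop :=
  ∃ _ : AddCommGroup G, ∀ a b c : G, a * (b + c) + a = a * b + a * c

theorem hasBrace_of_cocycle {G M : Type*} [Group G] [AddCommGroup M] (e : G ≃ M)
    (l : G → M →+ M) (h : ∀ g k, e (g * k) = e g + l g (e k)) : HasBrace G := by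
  let inst : AddCommGroup G := e.addCommGroup
  have hadd : ∀ x y : G, e (x + y) = e x + e y := fun x y => e.apply_symm_apply _
  refine ⟨inst, fun a b c => e.injective ?_⟩
  rw [hadd, hadd, h, h, h, hadd, map_add]
  abel

theorem HasBrace.congr {G H : Type*} [Group G] [Group H] (f : G ≃* H) (hG : HasBrace G) :
    HasBrace H := by
  obtain ⟨i, hb⟩ := hG
  let inst : AddCommGroup H := f.symm.toEquiv.addCommGroup
  have hadd : ∀ x y : H, f.symm (x + y) = f.symm x + f.symm y :=
    fun x y => f.symm.toEquiv.apply_symm_apply _
  refine ⟨inst, fun a b c => f.symm.injective ?_⟩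
  rw [hadd, hadd, map_mul, map_mul, map_mul, hadd, hb]

section

variable {X : Type*} [Group X] [AddCommGroup X]

/-- the lambda map of a left brace -/
def lam (a b : X) : X := a * b - a

theorem mul_eq (a b : X) : a * b = a + lam a b := by unfold lam; abel

variable (hb : ∀ a b c : X, a * (b + c) + a = a * b + a * c)

include hb

theorem lam_add (a b c : X) : lam a (b + c) = lam a b + lam a c := by
  unfold lam
  have := hb a b c
  rw [← eq_sub_iff_add_eq] at this
  rw [this]; abel

theorem one_eq_zero : (1 : X) = 0 := by
  have h := hb 1 0 0
  simpa using h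

theorem lam_mul (a b c : X) : lam (a * b) c = lam a (lam b c) := by
  have h1 : b * c = b + lam b c := mul_eq b c
  have h2 : lam a (b * c) = lam a b + lam a (lam b c) := by rw [h1, lam_add hb]
  have h3 : lam a (lam b c) = lam a (b * c) - lam a b := by rw [h2]; abel
  rw [h3]
  unfold lam
  rw [mul_assoc]; abel

theorem lam_one (b : X) : lam 1 b = b := by
  unfold lam
  rw [one_mul, one_eq_zero hb, sub_zero]

/-- the lambda map as an additive homomorphism -/
def lamHom (a : X) : X →+ X := AddMonoidHom.mk' (lam a) (lam_add hb a)

theorem lam_zero (a : X) : lam a 0 = 0 := (lamHom hb a).map_zero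

theorem lam_neg (a b : X) : lam a (-b) = - lam a b := (lamHom hb a).map_neg b

theorem lam_sub (a b c : X) : lam a (b - c) = lam a b - lam a c := (lamHom hb a).map_sub b c

theorem lam_nsmul (a : X) (n : ℕ) (b : X) : lam a (n • b) = n • lam a b :=
  map_nsmul (lamHom hb a) n b

omit hb in
theorem lam_inj (a : X) {b c : X} (h : lam a b = lam a c) : b = c := by
  unfold lam at h
  exact mul_left_cancel (sub_left_injective h)

end

end Pool.Agent.R879.IYB
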