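import Mathlib

/-!
# A group of order 243 with a semidihedral group of automorphisms

`P` is the group of the elements `1 + a₁ Π + a₂ Π² + a₃ Π³` of norm one of the twisted polynomial
ring `𝔽₉[Π; σ]/(Π⁴)`, in coordinates: `a₁ = x + i y`, `a₂ = -N(a₁) + i b`, `a₃ = u + i v`.
-/

set_option autoImplicit false

namespace Pool.Agent.R879.IYB

/-- the underlying set of the group of order 243 -/
@[ext] structure P where
  x : ZMod 3
  y : ZMod 3
  b : ZMod 3
  u : ZMod 3
  v : ZMod 3
deriving DecidableEq, Fintype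

namespace P

theorem h3 : (3 : ZMod 3) = 0 := by decide

instance : Mul P := ⟨fun p q =>
  ⟨p.x + q.x, p.y + q.y, p.b + q.b + p.y * q.x - p.x * q.y,
   p.u + q.u - p.x * (q.x * q.x + q.y * q.y) + p.y * q.b - (p.x * p.x + p.y * p.y) * q.x - p.b * q.y,
   p.v + q.v - p.y * (q.x * q.x + q.y * q.y) - p.x * q.b - (p.x * p.x + p.y * p.y) * q.y
      + p.b * q.x⟩⟩

instance : One P := ⟨⟨0, 0, 0, 0, 0⟩⟩

instance : Inv P := ⟨fun p => ⟨-p.x, -p.y, -p.b, -p.u, -p.v⟩⟩

theorem mul_def (p q : P) : p * q =
  ⟨p.x + q.x, p.y + q.y, p.b + q.b + p.y * q.x - p.x * q.y,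
   p.u + q.u - p.x * (q.x * q.x + q.y * q.y) + p.y * q.b - (p.x * p.x + p.y * p.y) * q.x - p.b * q.y,
   p.v + q.v - p.y * (q.x * q.x + q.y * q.y) - p.x * q.b - (p.x * p.x + p.y * p.y) * q.y
      + p.b * q.x⟩ := rfl

theorem one_def : (1 : P) = ⟨0, 0, 0, 0, 0⟩ := rfl

theorem inv_def (p : P) : p⁻¹ = ⟨-p.x, -p.y, -p.b, -p.u, -p.v⟩ := rfl

instance : Group P :=
  Group.ofLeftAxioms
    (by
      intro p q r
      ext
      · simp only [mul_def]; ring
      · simp only [mul_def]; ring
      · simp only [mul_def]; ring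
      · simp only [mul_def]
        linear_combination (p.x*q.y*r.y-p.y*q.y*r.x) * h3
      · simp only [mul_def]
        linear_combination (-p.x*q.x*r.y+p.y*q.x*r.x) * h3)
    (by
      intro p
      ext <;> simp only [mul_def, one_def] <;> ring)
    (by
      intro p
      ext <;> simp only [mul_def, one_def, inv_def] <;> ring)

theorem card_P : Fintype.card P = 243 := by decide +kernel

theorem natCard_P : Nat.card P = 3 ^ 5 := by
  rw [Nat.card_eq_fintype_card, card_P]; norm_num

/-- the automorphism `Π ↦ ζ Π` -/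
def th : MulAut P where
  toFun p := ⟨p.x - p.y, p.x + p.y, -p.b, p.v - p.u, -p.u - p.v⟩
  invFun p := ⟨-p.x - p.y, p.x - p.y, -p.b, p.u + p.v, p.v - p.u⟩
  left_inv p := by
    ext
    · simp only []; linear_combination (-p.x) * h3
    · simp only []; linear_combination (-p.y) * h3
    · simp only []; ring
    · simp only []; linear_combination (-p.u) * h3
    · simp only []; linear_combination (-p.v) * h3
  right_inv p := by
    ext
    · simp only []; linear_combination (-p.x) * h3
    · simp only []; linear_combination (-p.y) * h3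
    · simp only []; ring
    · simp only []; linear_combination (-p.u) * h3
    · simp only []; linear_combination (-p.v) * h3
  map_mul' p q := by
    ext
    · simp only [mul_def]; ring
    · simp only [mul_def]; ring
    · simp only [mul_def]; linear_combination (p.x*q.y-p.y*q.x) * h3
    · simp only [mul_def]
      linear_combination (p.x*q.x^2+p.x*q.y^2+p.x^2*q.x-p.x^2*q.y-p.y*q.x^2-p.y*q.y^2+p.y^2*q.x
        -p.y^2*q.y) * h3
    · simp only [mul_def]
      linear_combination (p.x*q.x^2+p.x*q.y^2+p.x^2*q.x+p.x^2*q.y+p.y*q.x^2+p.y*q.y^2+p.y^2*q.x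
        +p.y^2*q.y) * h3

/-- the Frobenius automorphism -/
def fr : MulAut P where
  toFun p := ⟨p.x, -p.y, -p.b, p.u, -p.v⟩
  invFun p := ⟨p.x, -p.y, -p.b, p.u, -p.v⟩
  left_inv p := by ext <;> simp
  right_inv p := by ext <;> simp
  map_mul' p q := by
    ext <;> simp only [mul_def] <;> ring

theorem th_apply (p : P) : th p = ⟨p.x - p.y, p.x + p.y, -p.b, p.v - p.u, -p.u - p.v⟩ := rfl

theorem fr_apply (p : P) : fr p = ⟨p.x, -p.y, -p.b, p.u, -p.v⟩ := rfl

theorem th8 : th ^ 8 = 1 := by
  ext1 p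
  revert p
  decide +kernel

theorem fr2 : fr ^ 2 = 1 := by
  ext1 p
  revert p
  decide +kernel

theorem fr_th : fr * th = th ^ 3 * fr := by
  ext1 p
  revert p
  decide +kernel

end P

/-- the semidihedral group of order 16 -/
@[ext] structure Q where
  k : ZMod 8
  e : ZMod 2
deriving DecidableEq, Fintype

namespace Q

/-- multiplication by `3 ^ e` -/
def tw (e : ZMod 2) (k : ZMod 8) : ZMod 8 := if e = 0 then k else 3 * k

instance : Mul Q := ⟨fun g h => ⟨g.k + tw g.e h.k, g.e + h.e⟩⟩

instance : One Q := ⟨⟨0, 0⟩⟩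

instance : Inv Q := ⟨fun g => ⟨- tw g.e g.k, g.e⟩⟩

theorem mul_def (g h : Q) : g * h = ⟨g.k + tw g.e h.k, g.e + h.e⟩ := rfl

instance : Group Q :=
  Group.ofLeftAxioms (by decide +kernel) (by decide +kernel) (by decide +kernel)

theorem card_Q : Fintype.card Q = 16 := by decide +kernel

theorem natCard_Q : Nat.card Q = 2 ^ 4 := by
  rw [Nat.card_eq_fintype_card, card_Q]; norm_num

/-- the power of `th` -/
def tau (k : ZMod 8) : MulAut P := P.th ^ k.val

/-- the power of `fr` -/
def fe (e : ZMod 2) : MulAut P := P.fr ^ e.val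

theorem tau_add (k l : ZMod 8) : tau (k + l) = tau k * tau l := by
  unfold tau
  rw [ZMod.val_add, ← pow_eq_pow_mod _ P.th8, pow_add]

theorem fe_add (k l : ZMod 2) : fe (k + l) = fe k * fe l := by
  unfold fe
  rw [ZMod.val_add, ← pow_eq_pow_mod _ P.fr2, pow_add]

theorem fr_th_pow (n : ℕ) : P.fr * P.th ^ n = P.th ^ (3 * n) * P.fr := by
  induction n with
  | zero => simp
  | succ n ih =>
    rw [pow_succ, ← mul_assoc, ih, mul_assoc, P.fr_th, ← mul_assoc, ← pow_add]
    congr 2

theorem fe_tau (e : ZMod 2) (k : ZMod 8) : fe e * tau k = tau (tw e k) * fe e := by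
  have he : e = 0 ∨ e = 1 := by revert e; decide
  rcases he with rfl | rfl
  · simp [fe, tw]
  · have h1 : fe 1 = P.fr := by simp [fe, ZMod.val_one]
    have h2 : tw 1 k = 3 * k := by simp [tw]
    rw [h1, h2]
    unfold tau
    rw [fr_th_pow, ZMod.val_mul, ← pow_eq_pow_mod _ P.th8]
    rfl

/-- the action of `Q` on `P` -/
def act : Q →* MulAut P where
  toFun g := tau g.k * fe g.e
  map_one' := by
    show tau 0 * fe 0 = 1
    simp [tau, fe]
  map_mul' g h := by
    rw [mul_def]
    simp only []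
    rw [tau_add, fe_add]
    calc tau g.k * tau (tw g.e h.k) * (fe g.e * fe h.e)
        = tau g.k * (tau (tw g.e h.k) * fe g.e) * fe h.e := by group
      _ = tau g.k * (fe g.e * tau h.k) * fe h.e := by rw [fe_tau]
      _ = _ := by group

/-- the generator of order 8 -/
def qt : Q := ⟨1, 0⟩

/-- the involution -/
def qf : Q := ⟨0, 1⟩

theorem act_qt : act qt = P.th := by
  show tau 1 * fe 0 = P.th
  simp [tau, fe]
  rfl

theorem act_qf : act qf = P.fr := by
  show tau 0 * fe 1 = P.fr
  simp [tau, fe, ZMod.val_one]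

end Q

end Pool.Agent.R879.IYB
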