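import Pool.Agent.R879.IYB.Brace
import Pool.Agent.R879.IYB.Grp

/-!
# There is no brace structure on `P` invariant under the semidihedral group
-/

set_option autoImplicit false

namespace Pool.Agent.R879.IYB

namespace P

theorem isPGroup_P : IsPGroup 3 P := IsPGroup.of_card natCard_P

/-- the generator of the fixed points of `fr` -/
def g : P := ⟨1, 0, 0, 0, 0⟩

theorem fr_g : fr g = g := by decide +kernel

theorem g3 : g * (g * g) ≠ 1 := by decide +kernel

theorem g9 : g * (g * (g * (g * (g * (g * (g * (g * g))))))) = 1 := by decide +kernel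

theorem card_fix : Fintype.card {p : P // fr p = p} = 9 := by decide +kernel

/-- the central involution -/
def z : MulAut P := th ^ 4

theorem z_apply (p : P) : z p = ⟨-p.x, -p.y, p.b, -p.u, -p.v⟩ := by
  revert p; decide +kernel

theorem zz (p : P) : z (z p) = p := by revert p; decide +kernel

theorem card_fixz : Fintype.card {p : P // z p = p} = 3 := by decide +kernel

theorem card_V : Fintype.card {p : P // p.x = 0 ∧ p.y = 0 ∧ p.b = 0} = 9 := by decide +kernel

theorem c1 : ∀ w : P, (w * z w) * z (w * z w) = ⟨0, 0, w.b, 0, 0⟩ := by decide +kernel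

theorem c2 : ∀ w : P, w.b = 0 → (w * th w).b = 0 → w.x = 0 ∧ w.y = 0 := by decide +kernel

theorem c3 : ∀ u v u' v' : ZMod 3, (⟨0, 0, 0, u, v⟩ : P) ≠ 1 → (⟨0, 0, 0, u', v'⟩ : P) ≠ 1 →
    ∃ k : Fin 8, (th ^ k.val) (⟨0, 0, 0, u, v⟩ : P) = ⟨0, 0, 0, u', v'⟩ := by decide +kernel

theorem c4 : ∀ u v : ZMod 3, ∃ p q : P, p * q = (⟨0, 0, 0, u, v⟩ : P) * (q * p) := by
  intro u v
  refine ⟨⟨0, 0, 1, 0, 0⟩, ⟨-v, u, 0, 0, 0⟩, ?_⟩
  revert u v
  decide +kernel

theorem c5 : ∀ w : P, ∃ b u v : ZMod 3,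
    th (th w) * (th w * (w * w)) = (⟨0, 0, b, 0, 0⟩ : P) * (⟨0, 0, 0, u, v⟩ : P) := by
  have h : ∀ w : P, th (th w) * (th w * (w * w)) =
      (⟨0, 0, (th (th w) * (th w * (w * w))).b, 0, 0⟩ : P) *
      (⟨0, 0, 0, (th (th w) * (th w * (w * w))).u, (th (th w) * (th w * (w * w))).v⟩ : P) := by
    decide +kernel
  exact fun w => ⟨_, _, _, h w⟩

theorem c6 : ∀ u v : ZMod 3, th (th (⟨0, 0, 0, u, v⟩ : P)) * (th (⟨0, 0, 0, u, v⟩ : P) *
    ((⟨0, 0, 0, u, v⟩ : P) * (⟨0, 0, 0, u, v⟩ : P))) = 1 → (⟨0, 0, 0, u, v⟩ : P) = 1 := by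
  decide +kernel

theorem zc : ∀ a : ZMod 3, a = 0 ∨ a = 1 ∨ a = -1 := by decide

theorem c8 : ∀ u v : ZMod 3, z (⟨0, 0, 0, u, v⟩ : P) = ⟨0, 0, 0, -u, -v⟩ := by decide +kernel

theorem c9 : ∀ w : P, w.x = 0 → w.y = 0 → w.b = 0 → w = ⟨0, 0, 0, w.u, w.v⟩ := by decide +kernel

theorem c7 : ∀ b : ZMod 3, z (⟨0, 0, b, 0, 0⟩ : P) = ⟨0, 0, b, 0, 0⟩ := by decide +kernel

end P

open P

section

variable (inst : AddCommGroup P) (hb : ∀ a b c : P, a * (b + c) + a = a * b + a * c)
  (hθ : ∀ x y : P, th (x + y) = th x + th y) (hF : ∀ x y : P, fr (x + y) = fr x + fr y)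

include hb hF

/-- the additive exponent is not 3 -/
theorem step1 : ¬ ∀ x : P, 3 • x = 0 := by
  intro h3
  have h3' : ∀ x : P, x + x + x = 0 := fun x => by
    have := h3 x
    rw [← this]
    abel
  have h10 : (1 : P) = 0 := one_eq_zero hb
  let fH : P →+ P := AddMonoidHom.mk' fr hF
  let S : AddSubgroup P := (fH - AddMonoidHom.id P).ker
  have hS : ∀ x : P, x ∈ S ↔ fr x = x := fun x => by
    rw [AddMonoidHom.mem_ker, AddMonoidHom.sub_apply, sub_eq_zero]
    rfl
  have hcard : Nat.card S = 9 := by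
    have e : S ≃ {p : P // fr p = p} := Equiv.subtypeEquivRight hS
    rw [Nat.card_congr e, Nat.card_eq_fintype_card, card_fix]
  let K : Subgroup P :=
    { carrier := {x | fr x = x}
      mul_mem' := by
        intro a b ha hb
        rw [Set.mem_ofPred_eq] at *
        rw [map_mul, ha, hb]
      one_mem' := map_one _
      inv_mem' := by
        intro a ha
        rw [Set.mem_ofPred_eq] at *
        rw [map_inv, ha] }
  have hlam : ∀ k s : P, fr k = k → fr s = s → fr (lam k s) = lam k s := by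
    intro k s hk hs
    have : fH (k * s - k) = k * s - k := by
      rw [map_sub]
      show fr (k * s) - fr k = _
      rw [map_mul, hk, hs]
    exact this
  let act : MulAction K S :=
    { smul := fun k s => ⟨lam k.1 s.1, (hS _).2 (hlam _ _ k.2 ((hS _).1 s.2))⟩
      one_smul := fun s => Subtype.ext (lam_one hb s.1)
      mul_smul := fun a b s => Subtype.ext (lam_mul hb a.1 b.1 s.1) }
  have hK : IsPGroup 3 K := isPGroup_P.to_subgroup K
  have : Fact (Nat.Prime 3) := ⟨Nat.prime_three⟩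
  obtain ⟨f, hf, hne⟩ := hK.exists_fixed_point_of_prime_dvd_card_of_fixed_point S
    (by rw [hcard]; norm_num) (a := (0 : S)) (by
      intro k
      exact Subtype.ext (lam_zero hb k.1))
  have hf0 : f.1 ≠ 0 := fun h => hne (Subtype.ext h.symm)
  have hfg : lam g f.1 = f.1 := congrArg Subtype.val (hf ⟨g, fr_g⟩)
  have hfr : fr f.1 = f.1 := (hS _).1 f.2
  generalize f.1 = φ at hf0 hfg hfr
  let md : Module (ZMod 3) P := AddCommGroup.zmodModule h3
  let L : P →ₗ[ZMod 3] P := (lamHom hb g).toZModLinearMap 3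
  have hL : ∀ x, L x = lam g x := fun _ => rfl
  have key : L g ≠ g := by
    intro hgg
    rw [hL] at hgg
    apply g3
    have e1 : g * g = g + g := by rw [mul_eq, hgg]
    have e2 : g * (g * g) = g + g + g := by
      rw [mul_eq g (g * g), e1, lam_add hb, hgg]; abel
    rw [e2, h3', h10]
  have hφ : ∀ c : ZMod 3, L (c • φ) = c • φ := fun c => by rw [map_smul, hL, hfg]
  have hgm : ∀ c : ZMod 3, g ≠ c • φ := by
    intro c h
    apply key
    have := hφ c
    rwa [← h] at this
  have hsurj : ∀ s : P, fr s = s → ∃ a b : ZMod 3, s = a • g + b • φ := by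
    let Sm : Submodule (ZMod 3) P := AddSubgroup.toZModSubmodule 3 S
    have hgS : g ∈ Sm := (hS _).2 fr_g
    have hfS : φ ∈ Sm := (hS _).2 hfr
    let Φ : ZMod 3 × ZMod 3 → Sm := fun ab =>
      ⟨ab.1 • g + ab.2 • φ, Sm.add_mem (Sm.smul_mem _ hgS) (Sm.smul_mem _ hfS)⟩
    have hinj : Function.Injective Φ := by
      rintro ⟨a, b⟩ ⟨c, d⟩ h
      have h' : a • g + b • φ = c • g + d • φ := congrArg Subtype.val h
      have h'' : (a - c) • g = (d - b) • φ := by
        rw [sub_smul, sub_smul, sub_eq_sub_iff_add_eq_add, h']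
        abel
      have hac : a - c = 0 := by
        by_contra hne
        apply hgm ((a - c)⁻¹ * (d - b))
        rw [mul_smul, ← h'', smul_smul, inv_mul_cancel₀ hne, one_smul]
      rw [hac, zero_smul] at h''
      have hdb : d - b = 0 := by
        rcases smul_eq_zero.1 h''.symm with h | h
        · exact h
        · exact absurd h hf0
      rw [Prod.mk.injEq]
      exact ⟨sub_eq_zero.1 hac, (sub_eq_zero.1 hdb).symm⟩
    have hc : Nat.card (ZMod 3 × ZMod 3) = Nat.card Sm := by
      have : Nat.card Sm = 9 := hcard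
      rw [this, Nat.card_prod, Nat.card_zmod]
    have hbij : Function.Bijective Φ := by
      rw [Nat.bijective_iff_injective_and_card]
      exact ⟨hinj, hc⟩
    intro s hs
    obtain ⟨⟨a, b⟩, hab⟩ := hbij.2 ⟨s, (hS _).2 hs⟩
    exact ⟨a, b, (congrArg Subtype.val hab).symm⟩
  obtain ⟨a, b, hab⟩ := hsurj (L g) (hlam g g fr_g fr_g)
  rcases zc a with rfl | rfl | rfl
  · rw [zero_smul, zero_add, ← hφ b] at hab
    exact hgm b (lam_inj g hab)
  · rw [one_smul] at hab
    apply g3
    have e1 : g * (g * g) = g + L (g + L g) := by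
      rw [mul_eq g (g * g), mul_eq g g]; rfl
    rw [e1, map_add, hab, map_add, hab, hφ, h10]
    have t0 := h3' g
    have t1 := h3' (b • φ)
    calc g + (g + b • φ + (g + b • φ + b • φ)) = (g + g + g) + (b • φ + b • φ + b • φ) := by abel
      _ = 0 := by rw [t0, t1, add_zero]
  · have h2 : L (L g) = g := by
      rw [hab, map_add, map_smul, hab, hφ, neg_smul, one_smul, neg_smul, one_smul]
      abel
    have h9 : L (L (L (L (L (L (L (L (L g)))))))) = g := by
      have : lam (g * (g * (g * (g * (g * (g * (g * (g * g)))))))) g = g := by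
        rw [g9, lam_one hb]
      simp only [lam_mul hb] at this
      exact this
    simp only [h2] at h9
    exact key h9

include hθ

/-- **There is no left brace with multiplicative group `P` for which `th` and `fr` are additive.** -/
theorem core : False := by
  have h10 : (1 : P) = 0 := one_eq_zero hb
  let zH : P →+ P := AddMonoidHom.mk' z (by
    intro x y
    show (th ^ 4) (x + y) = (th ^ 4) x + (th ^ 4) y
    simp only [pow_succ, pow_zero, one_mul, MulAut.mul_apply, hθ])
  have hz : ∀ x y : P, z (x + y) = z x + z y := zH.map_add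
  let tH : P →+ P := AddMonoidHom.mk' th hθ
  have hθn : ∀ (n : ℕ) (x : P), th (n • x) = n • th x := fun n x => map_nsmul tH n x
  have hzn : ∀ (n : ℕ) (x : P), z (n • x) = n • z x := fun n x => map_nsmul zH n x
  -- the fixed points of `z`
  have hT : ∀ t : P, z t = t → 3 • t = 0 := by
    intro t ht
    let T : AddSubgroup P := (zH - AddMonoidHom.id P).ker
    have hTm : ∀ x : P, x ∈ T ↔ z x = x := fun x => by
      rw [AddMonoidHom.mem_ker, AddMonoidHom.sub_apply, sub_eq_zero]
      rfl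
    have hcard : Nat.card T = 3 := by
      have e : T ≃ {p : P // z p = p} := Equiv.subtypeEquivRight hTm
      rw [Nat.card_congr e, Nat.card_eq_fintype_card, card_fixz]
    have h := card_nsmul_eq_zero' (G := T) (x := ⟨t, (hTm t).2 ht⟩)
    rw [hcard] at h
    exact congrArg Subtype.val h
  have hW1 : ∀ x : P, z (3 • x) = -(3 • x) := by
    intro x
    have h1 : z (z x + x) = z x + x := by rw [hz, zz]; abel
    have h2 := hT _ h1
    rw [nsmul_add, ← hzn] at h2
    exact eq_neg_of_add_eq_zero_left h2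
  have hodd : ∀ x : P, x = -x → x = 0 := by
    intro x hx
    have h1 : 2 • x = 0 := by
      rw [two_nsmul]
      nth_rewrite 2 [hx]
      rw [add_neg_cancel]
    have h2 : 243 • x = 0 := by
      have := card_nsmul_eq_zero' (G := P) (x := x)
      rwa [natCard_P] at this
    have h3 : 243 • x = 121 • (2 • x) + x := by
      rw [smul_smul, ← succ_nsmul]
      rfl
    rw [h1, smul_zero, zero_add] at h3
    rw [← h3, h2]
  have hlam3 : ∀ a x : P, lam a (3 • x) = 3 • lam a x := fun a x => lam_nsmul hb a 3 x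
  -- the set `3 P`
  let W : P → Prop := fun w => ∃ x, w = 3 • x
  have Wz : ∀ w, W w → z w = -w := by
    rintro w ⟨x, rfl⟩; exact hW1 x
  have Wfix : ∀ w, W w → z w = w → w = 1 := by
    intro w hw h
    rw [h10]
    apply hodd
    rw [← Wz w hw, h]
  have Wmul : ∀ a b, W a → W b → W (a * b) := by
    rintro a b ⟨x, rfl⟩ ⟨y, rfl⟩
    refine ⟨x + lam (3 • x) y, ?_⟩
    rw [mul_eq, hlam3, nsmul_add]
  have WZ : ∀ a, W a → W (z a) := by
    rintro a ⟨x, rfl⟩
    exact ⟨z x, hzn 3 x⟩
  have Wt : ∀ a, W a → W (th a) := by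
    rintro a ⟨x, rfl⟩
    exact ⟨th x, hθn 3 x⟩
  have Wtn : ∀ (n : ℕ) a, W a → W ((th ^ n) a) := by
    intro n
    induction n with
    | zero => intro a ha; simpa using ha
    | succ n ih =>
      intro a ha
      rw [pow_succ, MulAut.mul_apply]
      exact ih _ (Wt _ ha)
  have Wb : ∀ w, W w → w.b = 0 := by
    intro w hw
    have h1 : W (w * z w) := Wmul _ _ hw (WZ _ hw)
    have h2 : W ((w * z w) * z (w * z w)) := Wmul _ _ h1 (WZ _ h1)
    rw [c1] at h2
    have h3 := Wfix _ h2 (c7 _)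
    exact congrArg P.b h3
  have WV : ∀ w, W w → w = ⟨0, 0, 0, w.u, w.v⟩ := by
    intro w hw
    obtain ⟨hx, hy⟩ := c2 w (Wb w hw) (Wb _ (Wmul _ _ hw (Wt _ hw)))
    exact c9 w hx hy (Wb w hw)
  -- a nontrivial element
  obtain ⟨x0, hx0⟩ : ∃ x : P, 3 • x ≠ 0 := by
    by_contra h
    push Not at h
    exact step1 inst hb hF h
  have VW : ∀ u v : ZMod 3, W ⟨0, 0, 0, u, v⟩ := by
    intro u v
    by_cases h : (⟨0, 0, 0, u, v⟩ : P) = 1
    · rw [h, h10]; exact ⟨0, (smul_zero 3).symm⟩
    · have h1 : W (3 • x0) := ⟨x0, rfl⟩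
      have h2 := WV _ h1
      obtain ⟨k, hk⟩ := c3 (3 • x0).u (3 • x0).v u v (by rw [← h2, h10]; exact hx0) h
      rw [← h2] at hk
      rw [← hk]
      exact Wtn _ _ h1
  -- `P` acts trivially on `3 P`
  let S : AddSubgroup P := (nsmulAddMonoidHom (α := P) 3).range
  have hS : ∀ x : P, x ∈ S ↔ W x := fun x =>
    ⟨fun ⟨y, hy⟩ => ⟨y, hy.symm⟩, fun ⟨y, hy⟩ => ⟨y, hy.symm⟩⟩
  have hcard : Nat.card S = 9 := by
    have e : S ≃ {p : P // p.x = 0 ∧ p.y = 0 ∧ p.b = 0} := Equiv.subtypeEquivRight (by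
      intro p
      rw [hS]
      constructor
      · intro h
        rw [WV p h]
        exact ⟨rfl, rfl, rfl⟩
      · rintro ⟨h1, h2, h3⟩
        rw [c9 p h1 h2 h3]
        exact VW _ _)
    rw [Nat.card_congr e, Nat.card_eq_fintype_card, card_V]
  have hlamW : ∀ a w, W w → W (lam a w) := by
    rintro a w ⟨x, rfl⟩
    exact ⟨_, hlam3 a x⟩
  let act : MulAction P S :=
    { smul := fun k s => ⟨lam k s.1, (hS _).2 (hlamW _ _ ((hS _).1 s.2))⟩
      one_smul := fun s => Subtype.ext (lam_one hb s.1)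
      mul_smul := fun a b s => Subtype.ext (lam_mul hb a b s.1) }
  have : Fact (Nat.Prime 3) := ⟨Nat.prime_three⟩
  obtain ⟨f, hf, hne⟩ := isPGroup_P.exists_fixed_point_of_prime_dvd_card_of_fixed_point S
    (by rw [hcard]; norm_num) (a := (0 : S)) (by
      intro k
      exact Subtype.ext (lam_zero hb k))
  have hf0 : f.1 ≠ 1 := fun h => hne (Subtype.ext (by rw [h, h10]; rfl))
  have hfP : ∀ a, lam a f.1 = f.1 := fun a => congrArg Subtype.val (hf a)
  have hfW : W f.1 := (hS _).1 f.2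
  generalize f.1 = φ at hf0 hfP hfW
  have hthlam : ∀ a b : P, th (lam a b) = lam (th a) (th b) := by
    intro a b
    show th (a * b - a) = th a * th b - th a
    rw [← map_mul]
    exact map_sub tH _ _
  have hfixt : ∀ w : P, (∀ a, lam a w = w) → ∀ a, lam a (th w) = th w := by
    intro w hw a
    have := hthlam (th.symm a) w
    rw [MulEquiv.apply_symm_apply, hw] at this
    exact this.symm
  have hfixn : ∀ (n : ℕ) (w : P), (∀ a, lam a w = w) → ∀ a, lam a ((th ^ n) w) = (th ^ n) w := by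
    intro n
    induction n with
    | zero => intro w hw; simpa using hw
    | succ n ih =>
      intro w hw
      rw [pow_succ, MulAut.mul_apply]
      exact ih _ (hfixt _ hw)
  have hfixV : ∀ (a : P) (u v : ZMod 3), lam a ⟨0, 0, 0, u, v⟩ = ⟨0, 0, 0, u, v⟩ := by
    intro a u v
    by_cases h : (⟨0, 0, 0, u, v⟩ : P) = 1
    · rw [h, h10, lam_zero hb]
    · have h2 := WV _ hfW
      obtain ⟨k, hk⟩ := c3 φ.u φ.v u v (by rw [← h2]; exact hf0) h
      rw [← h2] at hk
      rw [← hk]
      exact hfixn _ _ hfP a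
  have hfixW : ∀ (a w : P), W w → lam a w = w := by
    intro a w hw
    rw [WV w hw]
    exact hfixV _ _ _
  -- tripling is a homomorphism
  have hψ : ∀ x y : P, 3 • (x * y) = 3 • x + 3 • y := by
    intro x y
    rw [mul_eq, nsmul_add, ← hlam3, hfixW _ _ ⟨y, rfl⟩]
  have hWadd : ∀ x w : P, W w → x * w = x + w := by
    intro x w hw
    rw [mul_eq, hfixW _ _ hw]
  have hV3 : ∀ u v : ZMod 3, 3 • (⟨0, 0, 0, u, v⟩ : P) = 0 := by
    intro u v
    obtain ⟨p, q, hpq⟩ := c4 u v
    have h := congrArg (fun t : P => 3 • t) hpq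
    simp only [hψ] at h
    rw [eq_sub_of_add_eq h.symm]
    abel
  have hfinal : ∀ x : P, 3 • x = 0 := by
    intro x
    obtain ⟨b, u, v, h⟩ := c5 x
    have h1 := congrArg (fun t : P => 3 • t) h
    simp only [hψ, hT _ (c7 b), hV3, ← hθn, add_zero] at h1
    have h2 : W (3 • x) := ⟨x, rfl⟩
    have h3 := WV _ h2
    rw [← hWadd (3 • x) _ h2, ← hWadd (th (3 • x)) _ (Wmul _ _ h2 h2),
      ← hWadd (th (th (3 • x))) _ (Wmul _ _ (Wt _ h2) (Wmul _ _ h2 h2)), ← h10, h3] at h1
    rw [h3, c6 _ _ h1, h10]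
  exact hx0 (hfinal x0)

end

end Pool.Agent.R879.IYB
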