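import Pool.Agent.R879.IYB.Red

/-!
# The Sylow subgroups of `P ⋊ Q` are multiplicative groups of left braces
-/

set_option autoImplicit false

namespace Pool.Agent.R879.IYB

namespace P

/-- the additive group of the brace on `P` -/
abbrev M := ZMod 3 × ZMod 3 × ZMod 3 × ZMod 3 × ZMod 3

/-- the bijective cocycle -/
def co : P ≃ M where
  toFun p := (p.x, p.y, p.b - p.x ^ 2 - p.y ^ 2,
    p.b * p.x - p.b * p.y + p.u - p.x * p.y ^ 2 - p.x ^ 2 * p.y - p.x ^ 3 - p.y ^ 3,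
    p.b * p.x + p.b * p.y + p.v + p.x * p.y ^ 2 - p.x ^ 2 * p.y + p.x ^ 3 - p.y ^ 3)
  invFun m := ⟨m.1, m.2.1, m.2.2.1 + m.1 ^ 2 + m.2.1 ^ 2,
    m.2.2.2.1 - ((m.2.2.1 + m.1 ^ 2 + m.2.1 ^ 2) * m.1 - (m.2.2.1 + m.1 ^ 2 + m.2.1 ^ 2) * m.2.1
      - m.1 * m.2.1 ^ 2 - m.1 ^ 2 * m.2.1 - m.1 ^ 3 - m.2.1 ^ 3),
    m.2.2.2.2 - ((m.2.2.1 + m.1 ^ 2 + m.2.1 ^ 2) * m.1 + (m.2.2.1 + m.1 ^ 2 + m.2.1 ^ 2) * m.2.1
      + m.1 * m.2.1 ^ 2 - m.1 ^ 2 * m.2.1 + m.1 ^ 3 - m.2.1 ^ 3)⟩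
  left_inv p := by
    ext <;> simp only [] <;> ring
  right_inv m := by
    obtain ⟨a, b, c, d, e⟩ := m
    simp only [Prod.mk.injEq]
    refine ⟨trivial, trivial, ?_, ?_, ?_⟩ <;> ring

/-- the linear action -/
def la (p : P) : M →+ M := AddMonoidHom.mk'
  (fun m => (m.1, m.2.1, p.x * m.1 - p.x * m.2.1 + p.y * m.1 + p.y * m.2.1 + m.2.2.1,
    p.b * m.1 + p.b * m.2.1 - p.x * p.y * m.1 - p.x * p.y * m.2.1 + p.x * m.2.2.1 - p.x ^ 2 * m.1
      + p.x ^ 2 * m.2.1 + m.2.2.2.1,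
    -p.b * m.1 + p.b * m.2.1 - p.x * p.y * m.1 + p.x * p.y * m.2.1 + p.y * m.2.2.1 - p.y ^ 2 * m.1
      - p.y ^ 2 * m.2.1 + m.2.2.2.2))
  (by
    rintro ⟨a, b, c, d, e⟩ ⟨a', b', c', d', e'⟩
    simp only [Prod.mk_add_mk, Prod.mk.injEq]
    refine ⟨trivial, trivial, ?_, ?_, ?_⟩ <;> ring)

theorem hasBrace_P : HasBrace P := by
  refine hasBrace_of_cocycle co la ?_
  intro p q
  show ((_, _, _, _, _) : M) = (_, _, _, _, _)
  simp only [mul_def, Prod.mk.injEq]
  refine ⟨rfl, rfl, ?_, ?_, ?_⟩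
  · show _ = (_ : ZMod 3)
    simp only [co, la, AddMonoidHom.mk'_apply, Equiv.coe_fn_mk]
    linear_combination (-p.x*q.x-p.y*q.y) * h3
  · simp only [co, la, AddMonoidHom.mk'_apply, Equiv.coe_fn_mk]
    linear_combination (-p.b*q.y-p.x*q.x*q.y-p.x*q.x^2-p.x^2*q.x-p.x^2*q.y-p.y*q.x*q.y-p.y*q.y^2
      -p.y^2*q.x-p.y^2*q.y) * h3
  · simp only [co, la, AddMonoidHom.mk'_apply, Equiv.coe_fn_mk]
    linear_combination (p.b*q.x-p.x*q.x*q.y+p.x*q.x^2+p.x^2*q.x-p.x^2*q.y+p.y*q.x*q.y-p.y*q.y^2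
      +p.y^2*q.x-p.y^2*q.y) * h3

end P

namespace Q

theorem tw_add (e : ZMod 2) (k l : ZMod 8) : tw e (k + l) = tw e k + tw e l := by
  unfold tw
  split_ifs
  · rfl
  · ring

theorem hasBrace_Q : HasBrace Q := by
  refine hasBrace_of_cocycle (M := ZMod 8 × ZMod 2)
    { toFun := fun g => (g.k, g.e)
      invFun := fun m => ⟨m.1, m.2⟩
      left_inv := fun _ => rfl
      right_inv := fun _ => rfl }
    (fun g => AddMonoidHom.mk' (fun m => (tw g.e m.1, m.2)) (by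
      intro a b
      simp only [Prod.fst_add, Prod.snd_add, tw_add]
      rfl)) ?_
  intro g h
  rfl

end Q

theorem hasBrace_of_subsingleton (G : Type*) [Group G] [Subsingleton G] : HasBrace G := by
  refine hasBrace_of_cocycle (M := PUnit.{1})
    { toFun := fun _ => PUnit.unit
      invFun := fun _ => 1
      left_inv := fun _ => Subsingleton.elim _ _
      right_inv := fun _ => rfl } (fun _ => 0) ?_
  intro g h
  rfl

open SemidirectProduct

theorem hasBrace_sylow (p : ℕ) [hp : Fact p.Prime] (S : Sylow p GG) : HasBrace S := by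
  by_cases h2 : p = 2
  · subst h2
    have hcR : Nat.card (inr : Q →* GG).range = 2 ^ 4 := by
      rw [← Nat.card_congr (MonoidHom.ofInjective (inr_injective (φ := Q.act))).toEquiv,
        Q.natCard_Q]
    let S0 : Sylow 2 GG := Sylow.ofCard (inr : Q →* GG).range (by rw [hcR, fact2])
    have e1 : Q ≃* S0 := MonoidHom.ofInjective (inr_injective (φ := Q.act))
    exact (Q.hasBrace_Q.congr e1).congr (S0.equiv S)
  by_cases h3 : p = 3
  · subst h3
    have hcR : Nat.card (inl : P →* GG).range = 3 ^ 5 := by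
      rw [← Nat.card_congr (MonoidHom.ofInjective (inl_injective (φ := Q.act))).toEquiv,
        P.natCard_P]
    let S0 : Sylow 3 GG := Sylow.ofCard (inl : P →* GG).range (by rw [hcR, fact3])
    have e1 : P ≃* S0 := MonoidHom.ofInjective (inl_injective (φ := Q.act))
    exact (P.hasBrace_P.congr e1).congr (S0.equiv S)
  have hc : Nat.card S = 1 := by
    rw [Sylow.card_eq_multiplicity, Nat.factorization_eq_zero_of_not_dvd, pow_zero]
    intro h
    rw [card_GG] at h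
    have h' : p ∣ 3 ^ 5 * 2 ^ 4 := by
      have : (3 ^ 5 * 2 ^ 4 : ℕ) = 243 * 16 := by norm_num
      rw [this]; exact h
    rcases (Nat.Prime.dvd_mul hp.out).1 h' with h | h
    · exact h3 ((Nat.prime_dvd_prime_iff_eq hp.out Nat.prime_three).1 (hp.out.dvd_of_dvd_pow h))
    · exact h2 ((Nat.prime_dvd_prime_iff_eq hp.out Nat.prime_two).1 (hp.out.dvd_of_dvd_pow h))
  have : Subsingleton S := (Nat.card_eq_one_iff_unique.1 hc).1
  exact hasBrace_of_subsingleton S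

theorem solvable_GG : Group.IsSolvable GG := by
  have h3 : Fact (Nat.Prime 3) := ⟨Nat.prime_three⟩
  have h2 : Fact (Nat.Prime 2) := ⟨Nat.prime_two⟩
  have hP : Group.IsSolvable P := by
    have := P.isPGroup_P.isNilpotent
    infer_instance
  have hQ : Group.IsSolvable Q := by
    have : IsPGroup 2 Q := IsPGroup.of_card Q.natCard_Q
    have := this.isNilpotent
    infer_instance
  exact Group.isSolvable_of_ker_le_range (inl : P →* GG) (rightHom : GG →* Q)
    range_inl_eq_ker_rightHom.ge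

end Pool.Agent.R879.IYB
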