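import Pool.Agent.R879.IYB.Core

/-!
# The semidirect product `P ⋊ Q` is not the multiplicative group of a left brace
-/

set_option autoImplicit false

namespace Pool.Agent.R879.IYB

theorem exists_addOrder {X : Type*} [AddCommGroup X] [Finite X] (p : ℕ) (hp : p.Prime)
    (h : p ∣ Nat.card X) : ∃ x : X, x ≠ 0 ∧ p • x = 0 := by
  have : Fact p.Prime := ⟨hp⟩
  obtain ⟨x, hx⟩ := exists_prime_orderOf_dvd_card' (G := Multiplicative X) p h
  refine ⟨Multiplicative.toAdd x, ?_, ?_⟩
  · intro h0
    have : x = 1 := h0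
    rw [this, orderOf_one] at hx
    exact hp.one_lt.ne hx
  · have : x ^ p = 1 := by rw [← hx]; exact pow_orderOf_eq_one x
    exact this

/-- The kernel of multiplication by `n` has order `n` when the order of the group is `n * m` with
`n` and `m` coprime. -/
theorem card_ker {X : Type*} [AddCommGroup X] [Finite X] (n m : ℕ) (hnm : Nat.Coprime n m)
    (hX : Nat.card X = n * m) :
    Nat.card (nsmulAddMonoidHom (α := X) n).ker = n := by
  have hpos : 0 < Nat.card X := Nat.card_pos
  have hn0 : 0 < n := by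
    rcases Nat.eq_zero_or_pos n with h | h
    · rw [hX, h, zero_mul] at hpos; exact absurd hpos (lt_irrefl 0)
    · exact h
  have hm0 : 0 < m := by
    rcases Nat.eq_zero_or_pos m with h | h
    · rw [hX, h, mul_zero] at hpos; exact absurd hpos (lt_irrefl 0)
    · exact h
  -- the two kernels
  have key : ∀ a b : ℕ, Nat.Coprime a b → Nat.card X = a * b →
      Nat.card (nsmulAddMonoidHom (α := X) a).ker ∣ a := by
    intro a b hab hc
    have hd : Nat.card (nsmulAddMonoidHom (α := X) a).ker ∣ a * b := by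
      rw [← hc]; exact AddSubgroup.card_addSubgroup_dvd_card _
    refine Nat.Coprime.dvd_of_dvd_mul_right ?_ hd
    rw [Nat.coprime_iff_gcd_eq_one]
    by_contra hne
    obtain ⟨q, hq, hqd⟩ := Nat.exists_prime_and_dvd hne
    obtain ⟨x, hx0, hx⟩ := exists_addOrder (X := (nsmulAddMonoidHom (α := X) a).ker) q hq
      (hqd.trans (Nat.gcd_dvd_left _ _))
    have hxa : a • x.1 = 0 := x.2
    have hxq : q • x.1 = 0 := congrArg Subtype.val hx
    have hco : Nat.Coprime q a := by
      rw [hq.coprime_iff_not_dvd]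
      intro h
      have := hab.symm
      exact hq.one_lt.ne' (Nat.eq_one_of_dvd_coprimes hab h (hqd.trans (Nat.gcd_dvd_right _ _)))
    apply hx0
    apply Subtype.ext
    have h1 : addOrderOf x.1 ∣ q := addOrderOf_dvd_of_nsmul_eq_zero hxq
    have h2 : addOrderOf x.1 ∣ a := addOrderOf_dvd_of_nsmul_eq_zero hxa
    have h3 := Nat.eq_one_of_dvd_coprimes hco h1 h2
    exact AddMonoid.addOrderOf_eq_one_iff.1 h3
  have h1 := key n m hnm hX
  have h2 := key m n hnm.symm (by rw [hX, mul_comm])
  have h3 : Nat.card (nsmulAddMonoidHom (α := X) n).ker *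
      Nat.card (nsmulAddMonoidHom (α := X) n).range = n * m := by
    rw [← hX, mul_comm]
    have := AddSubgroup.card_mul_index (nsmulAddMonoidHom (α := X) n).ker
    rw [AddSubgroup.index_ker] at this
    rw [← this, mul_comm]
  have h4 : (nsmulAddMonoidHom (α := X) n).range ≤ (nsmulAddMonoidHom (α := X) m).ker := by
    rintro _ ⟨x, rfl⟩
    rw [AddMonoidHom.mem_ker]
    show m • (n • x) = 0
    rw [smul_smul, mul_comm, ← hX]
    exact card_nsmul_eq_zero'
  have h5 : Nat.card (nsmulAddMonoidHom (α := X) n).range ∣ m :=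
    (AddSubgroup.card_dvd_of_le h4).trans h2
  have h6 := Nat.le_of_dvd hn0 h1
  have h7 := Nat.le_of_dvd hm0 h5
  by_contra hne
  have h8 : Nat.card (nsmulAddMonoidHom (α := X) n).ker < n := lt_of_le_of_ne h6 hne
  have : Nat.card (nsmulAddMonoidHom (α := X) n).ker *
      Nat.card (nsmulAddMonoidHom (α := X) n).range < n * m :=
    Nat.mul_lt_mul_of_lt_of_le h8 h7 hm0
  omega

section

variable {X : Type*} [Group X] [AddCommGroup X]
  (hb : ∀ a b c : X, a * (b + c) + a = a * b + a * c)

include hb

theorem inv_eq (a : X) : a⁻¹ = lam a⁻¹ (-a) := by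
  have h1 : lam a⁻¹ a = -a⁻¹ := by
    unfold lam
    rw [inv_mul_cancel, one_eq_zero hb, zero_sub]
  rw [lam_neg hb, h1, neg_neg]

/-- the `n`-torsion of the additive group is a subgroup of the multiplicative group -/
def tor (n : ℕ) : Subgroup X where
  carrier := {x | n • x = 0}
  mul_mem' := by
    intro a b ha hb'
    rw [Set.mem_ofPred_eq] at *
    rw [mul_eq, nsmul_add, ← lam_nsmul hb, ha, hb', lam_zero hb, add_zero]
  one_mem' := by
    rw [Set.mem_ofPred_eq, one_eq_zero hb, smul_zero]
  inv_mem' := by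
    intro a ha
    rw [Set.mem_ofPred_eq] at *
    rw [inv_eq hb, ← lam_nsmul hb, smul_neg, ha, neg_zero, lam_zero hb]

theorem mem_tor (n : ℕ) (x : X) : x ∈ tor hb n ↔ n • x = 0 := Iff.rfl

theorem card_tor [Finite X] (n m : ℕ) (hnm : Nat.Coprime n m) (hX : Nat.card X = n * m) :
    Nat.card (tor hb n) = n := card_ker n m hnm hX

end

/-- the group of order 3888 -/
abbrev GG := P ⋊[Q.act] Q

instance : Finite GG := Finite.of_injective (fun x : GG => (x.left, x.right))
  (fun _ _ h => SemidirectProduct.ext (congrArg Prod.fst h) (congrArg Prod.snd h))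

theorem card_GG : Nat.card GG = 243 * 16 := by
  rw [SemidirectProduct.card, P.natCard_P, Q.natCard_Q]
  norm_num

theorem fact2 : (Nat.card GG).factorization 2 = 4 := by
  have h : Nat.card GG = 2 ^ 4 * 243 := by rw [card_GG]; norm_num
  rw [h, Nat.factorization_mul (by norm_num) (by norm_num), Finsupp.add_apply,
    Nat.Prime.factorization_pow Nat.prime_two, Finsupp.single_eq_same,
    Nat.factorization_eq_zero_of_not_dvd (by norm_num)]

theorem fact3 : (Nat.card GG).factorization 3 = 5 := by
  have h : Nat.card GG = 3 ^ 5 * 16 := by rw [card_GG]; norm_num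
  rw [h, Nat.factorization_mul (by norm_num) (by norm_num), Finsupp.add_apply,
    Nat.Prime.factorization_pow Nat.prime_three, Finsupp.single_eq_same,
    Nat.factorization_eq_zero_of_not_dvd (by norm_num)]

open SemidirectProduct Pointwise in
theorem not_hasBrace_GG : ¬ HasBrace GG := by
  rintro ⟨inst, hb⟩
  have hcA : Nat.card (tor hb 243) = 243 := card_tor hb 243 16 (by norm_num) card_GG
  have hcB : Nat.card (tor hb 16) = 16 :=
    card_tor hb 16 243 (by norm_num) (by rw [card_GG])
  -- the additive Sylow 3-subgroup is `P`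
  have hker : Nat.card (rightHom : GG →* Q).ker = 243 := by
    rw [← range_inl_eq_ker_rightHom,
      ← Nat.card_congr (MonoidHom.ofInjective (inl_injective (φ := Q.act))).toEquiv,
      P.natCard_P]
    norm_num
  have hA : tor hb 243 = (rightHom : GG →* Q).ker := by
    refine Subgroup.eq_of_le_of_card_ge ?_ (by rw [hker, hcA])
    intro x hx
    rw [MonoidHom.mem_ker]
    have h1 : x ^ 243 = 1 := by
      rw [← orderOf_dvd_iff_pow_eq_one, ← hcA]
      exact Subgroup.orderOf_dvd_natCard _ hx
    have h2 : (rightHom x : Q) ^ 243 = 1 := by rw [← map_pow, h1, map_one]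
    have h3 : (rightHom x : Q) ^ 16 = 1 := by
      have := pow_card_eq_one' (G := Q) (x := rightHom x)
      rwa [Q.natCard_Q] at this
    have h4 : orderOf (rightHom x : Q) = 1 :=
      Nat.eq_one_of_dvd_coprimes (a := 243) (b := 16) (by norm_num)
        (orderOf_dvd_of_pow_eq_one h2) (orderOf_dvd_of_pow_eq_one h3)
    exact orderOf_eq_one_iff.1 h4
  -- conjugacy of the Sylow 2-subgroups
  have : Fact (Nat.Prime 2) := ⟨Nat.prime_two⟩
  have hcR : Nat.card (inr : Q →* GG).range = 2 ^ 4 := by
    rw [← Nat.card_congr (MonoidHom.ofInjective (inr_injective (φ := Q.act))).toEquiv,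
      Q.natCard_Q]
  obtain ⟨c, hc⟩ := MulAction.exists_smul_eq GG
    (Sylow.ofCard (inr : Q →* GG).range (by rw [hcR, fact2]))
    (Sylow.ofCard (tor hb 16) (by rw [hcB, fact2]; norm_num))
  have hc' : ∀ q : Q, c * inr q * c⁻¹ ∈ tor hb 16 := by
    intro q
    have h1 : MulAut.conj c • (inr q : GG) ∈ MulAut.conj c • (inr : Q →* GG).range :=
      Subgroup.smul_mem_pointwise_smul _ _ _ ⟨q, rfl⟩
    have h2 := congrArg (fun S : Sylow 2 GG => (S : Subgroup GG)) hc
    simp only [Sylow.coe_subgroup_smul, Sylow.coe_ofCard] at h2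
    rw [h2] at h1
    exact h1
  -- the identification of `P` with the additive Sylow 3-subgroup
  have hinl : ∀ p : P, c * inl p * c⁻¹ ∈ tor hb 243 := by
    intro p
    rw [hA, MonoidHom.mem_ker]
    simp
  let A : AddSubgroup GG := (nsmulAddMonoidHom (α := GG) 243).ker
  let e0 : P → A := fun p => ⟨c * inl p * c⁻¹, hinl p⟩
  have he0 : Function.Bijective e0 := by
    rw [Nat.bijective_iff_injective_and_card]
    refine ⟨?_, ?_⟩
    · intro p q h
      have h1 : c * inl p * c⁻¹ = c * inl q * c⁻¹ := congrArg Subtype.val h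
      exact inl_injective (mul_left_cancel (mul_right_cancel h1))
    · rw [P.natCard_P]
      exact hcA.symm
  let e : P ≃ A := Equiv.ofBijective e0 he0
  have hev : ∀ p, (e p : GG) = c * inl p * c⁻¹ := fun _ => rfl
  have hemul : ∀ p q, (e (p * q) : GG) = (e p : GG) * (e q : GG) := by
    intro p q
    simp only [hev, map_mul]
    group
  let iP : AddCommGroup P := e.addCommGroup
  have hadd : ∀ x y : P, (e (x + y) : GG) = (e x : GG) + (e y : GG) := fun x y =>
    congrArg Subtype.val (e.apply_symm_apply (e x + e y))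
  have hinj : ∀ x y : P, (e x : GG) = (e y : GG) → x = y := fun x y h => e.injective (Subtype.ext h)
  have hbP : ∀ a b c : P, a * (b + c) + a = a * b + a * c := by
    intro p q r
    apply hinj
    rw [hadd, hadd, hemul, hemul, hemul, hadd, hb]
  -- `Q` acts by additive automorphisms
  have hact : ∀ (q : Q) (p : P), (e (Q.act q p) : GG) = lam (c * inr q * c⁻¹) (e p : GG) := by
    intro q p
    set h := c * inr q * c⁻¹ with hh
    set x := (e p : GG) with hx
    have hxA : x ∈ tor hb 243 := hinl p
    have hhB : h ∈ tor hb 16 := hc' q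
    have h1 : (e (Q.act q p) : GG) = h * x * h⁻¹ := by
      rw [hev, hh, hx, hev, inl_aut, map_inv]
      group
    have hx'A : h * x * h⁻¹ ∈ tor hb 243 := by
      rw [← h1]; exact hinl _
    have h2 : h + lam h x = h * x * h⁻¹ + lam (h * x * h⁻¹) h := by
      rw [← mul_eq, ← mul_eq]; group
    have h3 : lam h x - h * x * h⁻¹ = lam (h * x * h⁻¹) h - h := by
      rw [sub_eq_sub_iff_add_eq_add, add_comm, h2, add_comm]
    have h4 : (243 : ℕ) • (lam h x - h * x * h⁻¹) = 0 := by
      rw [nsmul_sub, ← lam_nsmul hb]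
      rw [mem_tor] at hxA hx'A
      rw [hxA, hx'A, lam_zero hb, sub_zero]
    have h5 : (16 : ℕ) • (lam h x - h * x * h⁻¹) = 0 := by
      rw [h3, nsmul_sub, ← lam_nsmul hb]
      rw [mem_tor] at hhB
      rw [hhB, lam_zero hb, sub_zero]
    have h6 : lam h x - h * x * h⁻¹ = 0 := by
      have e1 := addOrderOf_dvd_of_nsmul_eq_zero h4
      have e2 := addOrderOf_dvd_of_nsmul_eq_zero h5
      exact AddMonoid.addOrderOf_eq_one_iff.1
        (Nat.eq_one_of_dvd_coprimes (a := 243) (b := 16) (by norm_num) e1 e2)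
    rw [h1]
    exact (sub_eq_zero.1 h6).symm
  have hactadd : ∀ (q : Q) (x y : P), Q.act q (x + y) = Q.act q x + Q.act q y := by
    intro q x y
    apply hinj
    rw [hact, hadd, lam_add hb, hadd, hact, hact]
  refine core iP hbP ?_ ?_
  · intro x y
    have := hactadd Q.qt x y
    rwa [Q.act_qt] at this
  · intro x y
    have := hactadd Q.qf x y
    rwa [Q.act_qf] at this

end Pool.Agent.R879.IYB
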